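import Pool.Agent.H48.ER.Targets

/-!
# MP_816b90_co: row HOL, holes consisting of two paths
-/

set_option autoImplicit false

open Pool.Agent.H48.ER

namespace Pool.Agent.H34.ER

theorem pf_HOL : T_HOL := by
  intro V G n m x y z w R T hG h1 h2 hd he hnm
  cases m with
  | zero =>
    obtain ⟨e, hT⟩ := h2.eq_of_zero
    subst e
    have hzT : z ∈ T := h2.left_mem
    have hev := hG n x y z R h1 (by omega) (fun h => Set.disjoint_left.1 hd h hzT)
      ((he x h1.left_mem z hzT).2 (Or.inl ⟨rfl, rfl⟩)).symm
      ((he y h1.right_mem z hzT).2 (Or.inr ⟨rfl, rfl⟩)).symm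
      (by
        intro a ha hadj
        rcases (he a ha z hzT).1 hadj.symm with h | h
        · exact Or.inl h.1
        · exact Or.inr h.1)
    simpa using hev
  | succ m =>
    have hzw : z ≠ w := h2.ne (by omega)
    have hzT : z ∈ T := h2.left_mem
    obtain ⟨z', hzz, hz'T, hT', hu⟩ := h2.tail
    have hd' : Disjoint R (T \ {z}) := by
      rw [Set.disjoint_left]
      intro a ha hb
      exact Set.disjoint_left.1 hd ha hb.1
    have hx : XE G R (T \ {z}) y w := by
      intro a ha b hb
      rw [he a ha b hb.1]
      constructor
      · rintro (h | h)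
        · exact absurd h.2 hb.2
        · exact h
      · intro h
        exact Or.inr h
    have h3 := h1.append hT'.rev hd' hx
    have hev := hG (n + m + 1) x z' z (R ∪ (T \ {z})) h3 (by omega)
      (by
        rintro (h | h)
        · exact Set.disjoint_left.1 hd h hzT
        · exact h.2 rfl)
      ((he x h1.left_mem z hzT).2 (Or.inl ⟨rfl, rfl⟩)).symm hzz
      (by
        rintro a (ha | ha) hadj
        · rcases (he a ha z hzT).1 hadj.symm with h | h
          · exact Or.inl h.1
          · exact absurd h.2 hzw
        · exact Or.inr (hu a ha.1 hadj))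
    have e : n + (m + 1) = n + m + 1 := by omega
    rw [e]
    exact hev

end Pool.Agent.H34.ER
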