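import Pool.Agent.H48.ER.Targets

/-!
# MP_816b90_co: row PYR, pyramids contain odd holes
-/

set_option autoImplicit false

open Pool.Agent.H48.ER

namespace Pool.Agent.H34.ER

private theorem pyr_aux {V : Type} {G : SimpleGraph V} {c : V} {b : Fin 3 → V} {m : Fin 3 → ℕ}
    {R : Fin 3 → Set V} (hG : NOH G) (hR : ∀ i, IP G (m i) c (b i) (R i)) (hm : ∀ i, 1 ≤ m i)
    (h1 : ∀ i j, i ≠ j → ¬ (m i = 1 ∧ m j = 1))
    (h2 : ∀ i j, i ≠ j → ∀ u ∈ R i, ∀ v ∈ R j, u ≠ c → v ≠ c →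
      u ≠ v ∧ (G.Adj u v ↔ u = b i ∧ v = b j)) (i j : Fin 3) (hij : i ≠ j) :
    ¬ Even (m i + m j) := by
  intro hev
  obtain ⟨k, hk⟩ : ∃ k, m i = k + 1 := ⟨m i - 1, by have := hm i; omega⟩
  obtain ⟨l, hl⟩ : ∃ l, m j = l + 1 := ⟨m j - 1, by have := hm j; omega⟩
  have hi := hR i
  have hj := hR j
  rw [hk] at hi
  rw [hl] at hj
  obtain ⟨x, hcx, hxR, hpx, hux⟩ := hi.tail
  obtain ⟨y, hcy, hyR, hpy, huy⟩ := hj.tail
  have hd : Disjoint (R i \ {c}) (R j \ {c}) := by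
    rw [Set.disjoint_left]
    intro a ha hb
    exact (h2 i j hij a ha.1 a hb.1 ha.2 hb.2).1 rfl
  have hx : XE G (R i \ {c}) (R j \ {c}) (b i) (b j) := by
    intro a ha d hb
    exact (h2 i j hij a ha.1 d hb.1 ha.2 hb.2).2
  have h3 := hpx.append hpy.rev hd hx
  have h4 := h1 i j hij
  have hev2 := hG (k + l + 1) x y c _ h3 (by omega)
    (by
      rintro (h | h)
      · exact h.2 rfl
      · exact h.2 rfl) hcx hcy
    (by
      rintro a (ha | ha) hadj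
      · exact Or.inl (hux a ha.1 hadj)
      · exact Or.inr (huy a ha.1 hadj))
  rw [hk, hl] at hev
  rw [Nat.even_iff] at hev hev2
  omega

theorem pf_PYR (_hHOL : T_HOL) : T_PYR := by
  intro V G c b m R hG hR hm h1 h2
  have a01 := pyr_aux hG hR hm h1 h2 0 1 (by decide)
  have a02 := pyr_aux hG hR hm h1 h2 0 2 (by decide)
  have a12 := pyr_aux hG hR hm h1 h2 1 2 (by decide)
  rw [Nat.even_iff] at a01 a02 a12
  omega

end Pool.Agent.H34.ER
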